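import Pool.Agent.Helper40.CN.Spec

/-!
# Blueprint CN (MP_349281_al), parts FB and FD
-/

set_option autoImplicit false

namespace Pool.Agent.Helper27.CN

open Pool.Agent.Helper40.CN

universe u

/-- Part FB. -/
theorem fb : S_FB.{u} := by
  intro G _ N k M _ _ m S1 S0 ψ f hf
  unfold FF at hf
  induction hf using AddSubgroup.closure_induction with
  | mem f hf =>
    refine AddSubgroup.subset_closure ?_
    rcases hf with ⟨φ, hφ, i, rfl⟩ | ⟨φ, hφ, b, rfl⟩
    · left
      refine ⟨ψ⁻¹ * φ, ⟨φ, hφ, rfl⟩, i, ?_⟩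
      funext u
      simp [mul_smul]
    · right
      refine ⟨ψ⁻¹ * φ, ⟨φ, hφ, rfl⟩, b, ?_⟩
      funext u
      simp [mul_smul]
  | zero =>
    have : (fun u => (ψ u)⁻¹ • ((0 : (Fin k → N) → M) u)) = 0 := by
      funext u
      simp
    rw [this]
    exact AddSubgroup.zero_mem _
  | add f g _ _ hf hg =>
    have : (fun u => (ψ u)⁻¹ • ((f + g) u)) = (fun u => (ψ u)⁻¹ • f u) + fun u => (ψ u)⁻¹ • g u := by
      funext u
      simp [smul_add]
    rw [this]
    exact AddSubgroup.add_mem _ hf hg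
  | neg f _ hf =>
    have : (fun u => (ψ u)⁻¹ • ((-f) u)) = -(fun u => (ψ u)⁻¹ • f u) := by
      funext u
      simp [smul_neg]
    rw [this]
    exact AddSubgroup.neg_mem _ hf

end Pool.Agent.Helper27.CN
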