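import Pool.Agent.Helper40.CN.Spec

/-!
# Blueprint CN (MP_349281_al), part FD
-/

set_option autoImplicit false

namespace Pool.Agent.Helper27.CN

open Pool.Agent.Helper40.CN

universe u

/-- Part FD. -/
theorem fd : S_FD.{u} := by
  intro G _ A N k M _ _ m hm Q0 hQ0 S1 S0 h f hf
  have key : ∀ φ ∈ Q0, ∀ u v, ∀ b : M, φ v • b = φ u • b := by
    intro φ hφ u v b
    have h1 : φ v = φ u * ((φ u)⁻¹ * φ v) := by group
    rw [h1, mul_smul, hm.triv _ (hQ0 φ hφ u v)]
  unfold FF at hf
  induction hf using AddSubgroup.closure_induction with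
  | mem f hf =>
    rcases hf with ⟨φ, hφ, i, rfl⟩ | ⟨φ, hφ, b, rfl⟩
    · have hR : (fun u : Fin k → N => (φ (u * h) * (u i : G)) • m (h i)) ∈
          FF N m (der Q0 (shift h) S1) (der Q0 (shift h) S0 ∪
            {ρ | ∃ ψ ∈ S1, ∃ i : Fin k, ρ = fun u => ψ (u * h) * (u i : G)}) := by
        refine AddSubgroup.subset_closure (Or.inr ?_)
        exact ⟨fun u => φ (u * h) * (u i : G), Or.inr ⟨φ, hφ, i, rfl⟩, m (h i), rfl⟩
      by_cases hq : φ ∈ Q0
      · convert hR using 1
        funext u
        have e1 : m (((u * h) i : N) : G) = m (u i) + ((u i : N) : G) • m (h i) := by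
          rw [Pi.mul_apply, Subgroup.coe_mul, hm.der]
        change φ (u * h) • m (((u * h) i : N) : G) - φ u • m (u i) = _
        rw [e1, smul_add, key φ hq u (u * h) (m (u i)), mul_smul]
        abel
      · have h1 : (fun u : Fin k → N => φ (u * h) • m (u i)) ∈
            FF N m (der Q0 (shift h) S1) (der Q0 (shift h) S0 ∪
              {ρ | ∃ ψ ∈ S1, ∃ i : Fin k, ρ = fun u => ψ (u * h) * (u i : G)}) := by
          refine AddSubgroup.subset_closure (Or.inl ?_)
          exact ⟨shift h φ, Or.inr ⟨φ, ⟨hφ, hq⟩, rfl⟩, i, rfl⟩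
        have h2 : (fun u : Fin k → N => φ u • m (u i)) ∈
            FF N m (der Q0 (shift h) S1) (der Q0 (shift h) S0 ∪
              {ρ | ∃ ψ ∈ S1, ∃ i : Fin k, ρ = fun u => ψ (u * h) * (u i : G)}) := by
          refine AddSubgroup.subset_closure (Or.inl ?_)
          exact ⟨φ, Or.inl ⟨hφ, hq⟩, i, rfl⟩
        have h3 := AddSubgroup.sub_mem _ (AddSubgroup.add_mem _ h1 hR) h2
        convert h3 using 1
        funext u
        have e1 : m (((u * h) i : N) : G) = m (u i) + ((u i : N) : G) • m (h i) := by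
          rw [Pi.mul_apply, Subgroup.coe_mul, hm.der]
        change φ (u * h) • m (((u * h) i : N) : G) - φ u • m (u i) = _
        simp only [Pi.sub_apply, Pi.add_apply]
        rw [e1, smul_add, mul_smul]
    · by_cases hq : φ ∈ Q0
      · have : (fun u : Fin k → N => (fun u => φ u • b) (u * h) - (fun u => φ u • b) u) = 0 := by
          funext u
          simp only [Pi.zero_apply]
          rw [key φ hq u (u * h) b, sub_self]
        rw [this]
        exact AddSubgroup.zero_mem _
      · have h1 : (fun u : Fin k → N => φ (u * h) • b) ∈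
            FF N m (der Q0 (shift h) S1) (der Q0 (shift h) S0 ∪
              {ρ | ∃ ψ ∈ S1, ∃ i : Fin k, ρ = fun u => ψ (u * h) * (u i : G)}) := by
          refine AddSubgroup.subset_closure (Or.inr ?_)
          exact ⟨shift h φ, Or.inl (Or.inr ⟨φ, ⟨hφ, hq⟩, rfl⟩), b, rfl⟩
        have h2 : (fun u : Fin k → N => φ u • b) ∈
            FF N m (der Q0 (shift h) S1) (der Q0 (shift h) S0 ∪
              {ρ | ∃ ψ ∈ S1, ∃ i : Fin k, ρ = fun u => ψ (u * h) * (u i : G)}) := by
          refine AddSubgroup.subset_closure (Or.inr ?_)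
          exact ⟨φ, Or.inl (Or.inl ⟨hφ, hq⟩), b, rfl⟩
        exact AddSubgroup.sub_mem _ h1 h2
  | zero =>
    have : (fun u => (0 : (Fin k → N) → M) (u * h) - (0 : (Fin k → N) → M) u) = 0 := by
      funext u
      simp
    rw [this]
    exact AddSubgroup.zero_mem _
  | add f g _ _ hf hg =>
    have : (fun u => (f + g) (u * h) - (f + g) u) =
        (fun u => f (u * h) - f u) + fun u => g (u * h) - g u := by
      funext u
      simp only [Pi.add_apply]
      abel
    rw [this]
    exact AddSubgroup.add_mem _ hf hg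
  | neg f _ hf =>
    have : (fun u => (-f) (u * h) - (-f) u) = -(fun u => f (u * h) - f u) := by
      funext u
      simp only [Pi.neg_apply]
      abel
    rw [this]
    exact AddSubgroup.neg_mem _ hf

end Pool.Agent.Helper27.CN
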