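import Pool.Agent.Helper40.CN.Spec

/-!
# Blueprint CN (MP_349281_al), part PC: the combinatorial induction
-/

set_option autoImplicit false

namespace Pool.Agent.Helper27.CN

open Pool.Agent.Helper40.CN

universe u

section

variable {𝒢 : Type u} [Group 𝒢]

/-- classes of the elements of level `j + 1` -/
def cls (Q : ℕ → Subgroup 𝒢) (S : Set 𝒢) (j : ℕ) : Set (𝒢 ⧸ Q j) :=
  (fun φ : 𝒢 => (QuotientGroup.mk φ : 𝒢 ⧸ Q j)) '' {φ | φ ∈ S ∧ φ ∈ Q (j + 1) ∧ φ ∉ Q j}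

/-- the weight of a set -/
noncomputable def nn (Q : ℕ → Subgroup 𝒢) (S : Set 𝒢) : ℕ → ℕ
  | 0 => Set.ncard ((fun _ : 𝒢 => ()) '' {φ | φ ∈ S ∧ φ ∈ Q 0})
  | j + 1 => (cls Q S j).ncard

theorem exists_level {Q : ℕ → Subgroup 𝒢} {D : ℕ} {φ : 𝒢} (h : φ ∈ Q D) (h0 : φ ∉ Q 0) :
    ∃ l, l + 1 ≤ D ∧ φ ∈ Q (l + 1) ∧ φ ∉ Q l := by
  classical
  have hex : ∃ n, φ ∈ Q n := ⟨D, h⟩
  have h1 : φ ∈ Q (Nat.find hex) := Nat.find_spec hex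
  have h2 : Nat.find hex ≤ D := Nat.find_le h
  rcases hn : Nat.find hex with _ | l
  · rw [hn] at h1
    exact absurd h1 h0
  · refine ⟨l, by omega, by rw [hn] at h1; exact h1, ?_⟩
    exact Nat.find_min hex (by omega)

theorem sigma_level {Q : ℕ → Subgroup 𝒢} (hQ : Monotone Q) {σ : 𝒢 → 𝒢}
    (h1 : ∀ j, ∀ ψ ∈ Q (j + 1), ψ⁻¹ * σ ψ ∈ Q j) {τ : 𝒢} {l : ℕ} (h2 : τ ∈ Q (l + 1))
    (h3 : τ ∉ Q l) : σ τ ∈ Q (l + 1) ∧ σ τ ∉ Q l := by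
  have e : σ τ = τ * (τ⁻¹ * σ τ) := by group
  refine ⟨?_, ?_⟩
  · rw [e]
    exact mul_mem h2 (hQ (Nat.le_succ l) (h1 l τ h2))
  · rw [e]
    intro h
    exact h3 ((Subgroup.mul_mem_cancel_right _ (h1 l τ h2)).1 h)

theorem der_tr_sub {Q : ℕ → Subgroup 𝒢} (hQ : Monotone Q) {σ : 𝒢 → 𝒢}
    (h1 : ∀ j, ∀ ψ ∈ Q (j + 1), ψ⁻¹ * σ ψ ∈ Q j) {D : ℕ} {S : Set 𝒢} (hS : S ⊆ Q D) {ψ : 𝒢}
    (hψ : ψ ∈ Q D) : der (Q 0) σ (tr ψ S) ⊆ {φ | φ ∈ Q D ∧ φ ∉ Q 0} := by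
  rintro φ (⟨⟨φ, hφ, rfl⟩, h0⟩ | ⟨_, ⟨⟨φ, hφ, rfl⟩, h0⟩, rfl⟩)
  · exact ⟨mul_mem (inv_mem hψ) (hS hφ), h0⟩
  · have h4 : ψ⁻¹ * φ ∈ Q D := mul_mem (inv_mem hψ) (hS hφ)
    obtain ⟨l, hl, h5, h6⟩ := exists_level h4 h0
    obtain ⟨h7, h8⟩ := sigma_level hQ h1 h5 h6
    exact ⟨hQ hl h7, fun h => h8 (hQ (Nat.zero_le l) h)⟩

theorem der_tr_finite {Q0 : Subgroup 𝒢} {σ : 𝒢 → 𝒢} {S : Set 𝒢} (hS : S.Finite) {ψ : 𝒢} :
    (der Q0 σ (tr ψ S)).Finite := by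
  have h1 : (tr ψ S).Finite := hS.image _
  have h2 : {φ | φ ∈ tr ψ S ∧ φ ∉ Q0}.Finite := h1.subset fun φ h => h.1
  exact h2.union (h2.image _)

theorem cls_finite {Q : ℕ → Subgroup 𝒢} {S : Set 𝒢} (hS : S.Finite) (j : ℕ) :
    (cls Q S j).Finite := (hS.subset fun _ h => h.1).image _

/-- an element of the classes of the new set comes from an element of the old set -/
theorem cls_der {Q : ℕ → Subgroup 𝒢} (hQ : Monotone Q) {σ : 𝒢 → 𝒢}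
    (h1 : ∀ j, ∀ ψ ∈ Q (j + 1), ψ⁻¹ * σ ψ ∈ Q j) {D : ℕ} {S : Set 𝒢} (hS : S ⊆ Q D) {ψ : 𝒢}
    (hψ : ψ ∈ Q D) {j : ℕ} {c : 𝒢 ⧸ Q j} (hc : c ∈ cls Q (der (Q 0) σ (tr ψ S)) j) :
    ∃ φ ∈ S, c = ψ⁻¹ • (QuotientGroup.mk φ : 𝒢 ⧸ Q j) ∧ ψ⁻¹ * φ ∈ Q (j + 1) ∧
      ψ⁻¹ * φ ∉ Q j := by
  obtain ⟨φ', ⟨h2, h3, h4⟩, rfl⟩ := hc
  rcases h2 with ⟨⟨φ, hφ, rfl⟩, h0⟩ | ⟨_, ⟨⟨φ, hφ, rfl⟩, h0⟩, rfl⟩
  · exact ⟨φ, hφ, rfl, h3, h4⟩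
  · have h5 : ψ⁻¹ * φ ∈ Q D := mul_mem (inv_mem hψ) (hS hφ)
    obtain ⟨l, hl, h6, h7⟩ := exists_level h5 h0
    obtain ⟨h8, h9⟩ := sigma_level hQ h1 h6 h7
    have hlj : l = j := by
      rcases lt_trichotomy l j with h | h | h
      · exact absurd (hQ (Nat.succ_le_of_lt h) h8) h4
      · exact h
      · exact absurd (hQ (Nat.succ_le_of_lt h) h3) h9
    subst hlj
    refine ⟨φ, hφ, ?_, h6, h7⟩
    change (QuotientGroup.mk (σ (ψ⁻¹ * φ)) : 𝒢 ⧸ Q l) = QuotientGroup.mk (ψ⁻¹ * φ)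
    exact (QuotientGroup.eq.2 (h1 l _ h6)).symm

theorem nn_le {Q : ℕ → Subgroup 𝒢} (hQ : Monotone Q) {σ : 𝒢 → 𝒢}
    (h1 : ∀ j, ∀ ψ ∈ Q (j + 1), ψ⁻¹ * σ ψ ∈ Q j) {D : ℕ} {S : Set 𝒢} (hS : S ⊆ Q D)
    (hf : S.Finite) {ψ : 𝒢} (hψ : ψ ∈ Q D) {i : ℕ} (hi : ψ ∈ Q i) {j : ℕ} (hj : i < j) :
    nn Q (der (Q 0) σ (tr ψ S)) j ≤ nn Q S j := by
  rcases j with _ | j
  · omega
  · have hψj : ψ ∈ Q j := hQ (Nat.le_of_lt_succ hj) hi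
    have hsub : cls Q (der (Q 0) σ (tr ψ S)) j ⊆ (fun c => ψ⁻¹ • c) '' (cls Q S j) := by
      intro c hc
      obtain ⟨φ, hφ, rfl, h3, h4⟩ := cls_der hQ h1 hS hψ hc
      refine ⟨_, ⟨φ, ⟨hφ, ?_, ?_⟩, rfl⟩, rfl⟩
      · exact (Subgroup.mul_mem_cancel_left _ (inv_mem (hQ (Nat.le_succ j) hψj))).1 h3
      · intro h
        exact h4 (mul_mem (inv_mem hψj) h)
    have hfin := cls_finite (Q := Q) hf j
    calc nn Q (der (Q 0) σ (tr ψ S)) (j + 1) = (cls Q (der (Q 0) σ (tr ψ S)) j).ncard := rfl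
      _ ≤ ((fun c => ψ⁻¹ • c) '' (cls Q S j)).ncard := Set.ncard_le_ncard hsub (hfin.image _)
      _ ≤ (cls Q S j).ncard := Set.ncard_image_le hfin
      _ = nn Q S (j + 1) := rfl

theorem nn_lt {Q : ℕ → Subgroup 𝒢} (hQ : Monotone Q) {σ : 𝒢 → 𝒢}
    (h1 : ∀ j, ∀ ψ ∈ Q (j + 1), ψ⁻¹ * σ ψ ∈ Q j) {D : ℕ} {S : Set 𝒢} (hS : S ⊆ Q D)
    (hf : S.Finite) {ψ : 𝒢} (hψ : ψ ∈ Q D) (hψS : ψ ∈ S) {i : ℕ} (hi : ψ ∈ Q i)
    (hmin : ∀ j < i, ∀ φ ∈ S, φ ∉ Q j) :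
    nn Q (der (Q 0) σ (tr ψ S)) i < nn Q S i := by
  rcases i with _ | j
  · have e1 : nn Q (der (Q 0) σ (tr ψ S)) 0 = 0 := by
      have : {φ | φ ∈ der (Q 0) σ (tr ψ S) ∧ φ ∈ Q 0} = (∅ : Set 𝒢) := by
        ext φ
        simp only [Set.mem_ofPred_eq, Set.mem_empty_iff_false, iff_false, not_and]
        intro h
        exact (der_tr_sub hQ h1 hS hψ h).2
      simp [nn, this]
    have e2 : 0 < nn Q S 0 := by
      have hne : ((fun _ : 𝒢 => ()) '' {φ | φ ∈ S ∧ φ ∈ Q 0}).Nonempty := ⟨(), ψ, ⟨hψS, hi⟩, rfl⟩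
      exact (Set.ncard_pos (Set.toFinite _)).2 hne
    omega
  · have hsub : cls Q (der (Q 0) σ (tr ψ S)) j ⊆
        (fun c => ψ⁻¹ • c) '' (cls Q S j \ {(QuotientGroup.mk ψ : 𝒢 ⧸ Q j)}) := by
      intro c hc
      obtain ⟨φ, hφ, rfl, h3, h4⟩ := cls_der hQ h1 hS hψ hc
      refine ⟨_, ⟨⟨φ, ⟨hφ, ?_, ?_⟩, rfl⟩, ?_⟩, rfl⟩
      · exact (Subgroup.mul_mem_cancel_left _ (inv_mem hi)).1 h3
      · exact hmin j (Nat.lt_succ_self j) φ hφ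
      · intro h
        have h5 : (QuotientGroup.mk φ : 𝒢 ⧸ Q j) = QuotientGroup.mk ψ := h
        exact h4 (QuotientGroup.eq.1 h5.symm)
    have hfin := cls_finite (Q := Q) hf j
    have hmem : (QuotientGroup.mk ψ : 𝒢 ⧸ Q j) ∈ cls Q S j :=
      ⟨ψ, ⟨hψS, hi, hmin j (Nat.lt_succ_self j) ψ hψS⟩, rfl⟩
    have hfin' : (cls Q S j \ {(QuotientGroup.mk ψ : 𝒢 ⧸ Q j)}).Finite := hfin.subset Set.sdiff_subset
    calc nn Q (der (Q 0) σ (tr ψ S)) (j + 1) = (cls Q (der (Q 0) σ (tr ψ S)) j).ncard := rfl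
      _ ≤ ((fun c => ψ⁻¹ • c) '' (cls Q S j \ {(QuotientGroup.mk ψ : 𝒢 ⧸ Q j)})).ncard :=
        Set.ncard_le_ncard hsub (hfin'.image _)
      _ ≤ (cls Q S j \ {(QuotientGroup.mk ψ : 𝒢 ⧸ Q j)}).ncard := Set.ncard_image_le hfin'
      _ < (cls Q S j).ncard := Set.ncard_sdiff_singleton_lt_of_mem hmem hfin
      _ = nn Q S (j + 1) := rfl

/-- the weight vector -/
noncomputable def wt (Q : ℕ → Subgroup 𝒢) (D : ℕ) (S : Set 𝒢) : Fin (D + 1) → ℕ := fun i => nn Q S (D - i)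

theorem wf (D : ℕ) : WellFounded (Pi.Lex (fun a b : Fin (D + 1) => a < b)
    (fun {_ : Fin (D + 1)} (a b : ℕ) => a < b)) :=
  Pi.Lex.wellFounded _ fun _ => wellFounded_lt

theorem wt_lt {Q : ℕ → Subgroup 𝒢} {D i : ℕ} {S S' : Set 𝒢} (hi : i ≤ D)
    (h1 : ∀ j, i < j → nn Q S' j ≤ nn Q S j) (h2 : nn Q S' i < nn Q S i) :
    Pi.Lex (fun a b : Fin (D + 1) => a < b) (fun {_ : Fin (D + 1)} (a b : ℕ) => a < b)
      (wt Q D S') (wt Q D S) := by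
  classical
  have hex : ∃ n : ℕ, ∃ h : n < D + 1, wt Q D S' ⟨n, h⟩ ≠ wt Q D S ⟨n, h⟩ := by
    refine ⟨D - i, by omega, ?_⟩
    simp only [wt]
    have : D - (D - i) = i := by omega
    rw [this]
    omega
  have hle : Nat.find hex ≤ D - i := by
    refine Nat.find_le ⟨by omega, ?_⟩
    simp only [wt]
    have : D - (D - i) = i := by omega
    rw [this]
    omega
  obtain ⟨h3, h4⟩ := Nat.find_spec hex
  refine ⟨⟨Nat.find hex, h3⟩, ?_, ?_⟩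
  · intro j hj
    by_contra hcon
    exact Nat.find_min hex (show (j : ℕ) < Nat.find hex from hj) ⟨j.2, hcon⟩
  · refine lt_of_le_of_ne ?_ h4
    change nn Q S' (D - Nat.find hex) ≤ nn Q S (D - Nat.find hex)
    rcases Nat.lt_or_ge i (D - Nat.find hex) with h | h
    · exact h1 _ h
    · have : D - Nat.find hex = i := by omega
      rw [this]
      exact h2.le

/-- the choice of `ψ` and the drop of the weight -/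
theorem drop {Q : ℕ → Subgroup 𝒢} (hQ : Monotone Q) {D : ℕ} {S : Set 𝒢} (hS : S ⊆ Q D)
    (hf : S.Finite) (hne : S.Nonempty) :
    ∃ ψ ∈ S, ∀ σ : 𝒢 → 𝒢, (∀ j, ∀ ψ ∈ Q (j + 1), ψ⁻¹ * σ ψ ∈ Q j) →
      Pi.Lex (fun a b : Fin (D + 1) => a < b) (fun {_ : Fin (D + 1)} (a b : ℕ) => a < b)
        (wt Q D (der (Q 0) σ (tr ψ S))) (wt Q D S) := by
  classical
  have hex : ∃ n : ℕ, ∃ φ ∈ S, φ ∈ Q n := by
    obtain ⟨φ, hφ⟩ := hne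
    exact ⟨D, φ, hφ, hS hφ⟩
  have hle : Nat.find hex ≤ D := by
    obtain ⟨φ, hφ⟩ := hne
    exact Nat.find_le ⟨φ, hφ, hS hφ⟩
  obtain ⟨ψ, hψS, hψ⟩ := Nat.find_spec hex
  refine ⟨ψ, hψS, fun σ h1 => ?_⟩
  refine wt_lt hle (fun j hj => nn_le hQ h1 hS hf (hS hψS) hψ hj)
    (nn_lt hQ h1 hS hf (hS hψS) hψS hψ ?_)
  intro j hj φ hφ h
  exact Nat.find_min hex hj ⟨φ, hφ, h⟩

end

/-- Part PC. -/
theorem pc : S_PC.{u} := by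
  intro 𝒢 _ D Q Sh hQ h1 _ Pred h0 hstep
  have A : ∀ w : Fin (D + 1) → ℕ, ∀ S0 : Set 𝒢, wt Q D S0 = w → S0.Finite → S0 ⊆ Q D →
      Pred ∅ S0 := by
    intro w
    induction w using (wf D).induction with
    | _ w ih =>
      intro S0 hw hf hS
      rcases S0.eq_empty_or_nonempty with rfl | hne
      · exact h0
      · obtain ⟨ψ, hψS, hψ⟩ := drop hQ hS hf hne
        refine hstep ∅ S0 Set.finite_empty hf (Set.empty_subset _) hS ψ (hS hψS) ?_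
        intro σ hσ R _ _ hR
        have e1 : der (Q 0) σ (tr ψ (∅ : Set 𝒢)) = ∅ := by
          simp [der, tr]
        rw [e1, hR rfl, Set.union_empty]
        refine ih _ ?_ _ rfl (der_tr_finite hf) fun φ h => (der_tr_sub hQ (h1 σ hσ) hS (hS hψS) h).1
        rw [← hw]
        exact hψ σ (h1 σ hσ)
  have B : ∀ w : Fin (D + 1) → ℕ, ∀ S1 S0 : Set 𝒢, wt Q D S1 = w → S1.Finite → S0.Finite →
      S1 ⊆ Q D → S0 ⊆ Q D → Pred S1 S0 := by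
    intro w
    induction w using (wf D).induction with
    | _ w ih =>
      intro S1 S0 hw hf1 hf0 hS1 hS0
      rcases S1.eq_empty_or_nonempty with rfl | hne
      · exact A _ S0 rfl hf0 hS0
      · obtain ⟨ψ, hψS, hψ⟩ := drop hQ hS1 hf1 hne
        refine hstep S1 S0 hf1 hf0 hS1 hS0 ψ (hS1 hψS) ?_
        intro σ hσ R hRf hRD _
        refine ih _ ?_ _ _ rfl (der_tr_finite hf1) ((der_tr_finite hf0).union hRf)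
          (fun φ h => (der_tr_sub hQ (h1 σ hσ) hS1 (hS1 hψS) h).1) ?_
        · rw [← hw]
          exact hψ σ (h1 σ hσ)
        · rintro φ (h | h)
          · exact (der_tr_sub hQ (h1 σ hσ) hS0 (hS1 hψS) h).1
          · exact hRD h
  intro S1 S0 hf1 hf0 hS1 hS0
  exact B _ S1 S0 rfl hf1 hf0 hS1 hS0

end Pool.Agent.Helper27.CN
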