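import Pool.Agent.Helper40.CN.Spec

/-!
# Blueprint CN (MP_349281_al), part PET
-/

set_option autoImplicit false

namespace Pool.Agent.Helper27.CN

open Pool.Agent.Helper40.CN

universe u

section

variable {G : Type u} [Group G] {A : Subgroup G} {M : Type u} [AddCommGroup M]
  [DistribMulAction G M] {m : G → M}

theorem kk_one (hm : IsKK A m) : m 1 = 0 := by
  have h := hm.der 1 1
  rw [mul_one, one_smul] at h
  simpa using h

theorem kk_conj (hm : IsKK A m) {a x : G} (ha : a ∈ A) : m (x⁻¹ * a * x) = x⁻¹ • m a := by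
  have h1 : m (x⁻¹ * x) = m x⁻¹ + x⁻¹ • m x := hm.der _ _
  rw [inv_mul_cancel, kk_one hm] at h1
  rw [mul_assoc, hm.der, hm.der, hm.triv a ha, smul_add]
  have h2 : m x⁻¹ = - (x⁻¹ • m x) := eq_neg_of_add_eq_zero_left h1.symm
  rw [h2]
  abel

theorem kk_div (hm : IsKK A m) {a b : G} (ha : a ∈ A) : m (a⁻¹ * b) = m b - m a := by
  have h1 : m (a⁻¹ * a) = m a⁻¹ + a⁻¹ • m a := hm.der _ _
  rw [inv_mul_cancel, kk_one hm, hm.triv _ (inv_mem ha)] at h1
  rw [hm.der, hm.triv _ (inv_mem ha)]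
  have h2 : m a⁻¹ = - m a := eq_neg_of_add_eq_zero_left h1.symm
  rw [h2]
  abel

theorem conj_fin_div {a b : G} (ha : (Set.range fun x : G => x * a * x⁻¹).Finite)
    (hb : (Set.range fun x : G => x * b * x⁻¹).Finite) :
    (Set.range fun x : G => x * (a⁻¹ * b) * x⁻¹).Finite := by
  refine (ha.image2 (fun p q => p⁻¹ * q) hb).subset ?_
  rintro _ ⟨x, rfl⟩
  refine ⟨x * a * x⁻¹, ⟨x, rfl⟩, x * b * x⁻¹, ⟨x, rfl⟩, ?_⟩
  group

theorem conj_fin_conj {a y : G} (ha : (Set.range fun x : G => x * a * x⁻¹).Finite) :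
    (Set.range fun x : G => x * (y⁻¹ * a * y) * x⁻¹).Finite := by
  refine ha.subset ?_
  rintro _ ⟨x, rfl⟩
  refine ⟨x * y⁻¹, ?_⟩
  group

theorem small_conj {X : Type u} {E : X → G} {ψ : X → G}
    (hE : ∀ u, (Set.range fun x : G => x * E u * x⁻¹).Finite)
    (hc : Cardinal.mk (Set.range E) < Cardinal.continuum) :
    Cardinal.mk (Set.range fun u => (ψ u)⁻¹ * E u * ψ u) < Cardinal.continuum := by
  have hsub : (Set.range fun u => (ψ u)⁻¹ * E u * ψ u) ⊆
      ⋃ a : Set.range E, Set.range fun x : G => x * (a : G) * x⁻¹ := by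
    rintro _ ⟨u, rfl⟩
    refine Set.mem_iUnion.2 ⟨⟨E u, u, rfl⟩, (ψ u)⁻¹, ?_⟩
    simp
  have h1 : Cardinal.mk (⋃ a : Set.range E, Set.range fun x : G => x * (a : G) * x⁻¹) ≤
      Cardinal.mk (Set.range E) * ⨆ a : Set.range E,
        Cardinal.mk (Set.range fun x : G => x * (a : G) * x⁻¹) := Cardinal.mk_iUnion_le _
  have h2 : (⨆ a : Set.range E, Cardinal.mk (Set.range fun x : G => x * (a : G) * x⁻¹)) ≤
      Cardinal.aleph0 := by
    refine ciSup_le' ?_
    rintro ⟨_, u, rfl⟩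
    exact ((hE u).lt_aleph0).le
  exact (Cardinal.mk_le_mk_of_subset hsub).trans_lt (h1.trans_lt
    (Cardinal.mul_lt_of_lt Cardinal.aleph0_le_continuum hc
      (h2.trans_lt Cardinal.aleph0_lt_continuum)))

theorem small_div {X : Type u} [Mul X] {E : X → G} (h : X)
    (hc : Cardinal.mk (Set.range E) < Cardinal.continuum) :
    Cardinal.mk (Set.range fun u => (E u)⁻¹ * E (u * h)) < Cardinal.continuum := by
  have hsub : (Set.range fun u => (E u)⁻¹ * E (u * h)) ⊆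
      Set.image2 (fun p q => p⁻¹ * q) (Set.range E) (Set.range E) := by
    rintro _ ⟨u, rfl⟩
    exact ⟨E u, ⟨u, rfl⟩, E (u * h), ⟨_, rfl⟩, rfl⟩
  exact (Cardinal.mk_le_mk_of_subset hsub).trans_lt (Cardinal.mk_image2_le.trans_lt
    (Cardinal.mul_lt_of_lt Cardinal.aleph0_le_continuum hc hc))

end

/-- Part PET. -/
theorem pet (hPC : S_PC.{u}) (hFB : S_FB.{u}) (hFD : S_FD.{u}) (hDIFF : S_DIFF.{u}) :
    S_PET.{u} := by
  intro G _ _ _ _ _ _ A N _ _ hN _ k D Q hQ M _ _ m hm S1 S0 hS1f hS0f hS1 hS0 E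
  have hshift : ∀ h : Fin k → N, ∀ φ ∈ Q D, shift h φ ∈ Q D := by
    intro h φ hφ
    have e : shift h φ = φ * (φ⁻¹ * shift h φ) := by group
    rw [e]
    refine mul_mem hφ ?_
    rcases D with _ | D
    · exact hQ.diff0 φ hφ h
    · exact hQ.mono (Nat.le_succ D) (hQ.diff D φ hφ h)
  have hNc : IsClosed (N : Set G) := Subgroup.isClosed_of_isOpen N hN
  have : CompactSpace N := isCompact_iff_compactSpace.1 hNc.isCompact
  refine hPC ((Fin k → N) → G) D Q {σ | ∃ h : Fin k → N, σ = shift h} hQ.mono ?_ ?_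
    (fun S1 S0 => ∀ E : (Fin k → N) → G, Continuous E → (∀ u, E u ∈ A) →
      (∀ u, (Set.range fun x : G => x * E u * x⁻¹).Finite) →
      Cardinal.mk (Set.range E) < Cardinal.continuum → (fun u => m (E u)) ∈ FF N m S1 S0 →
      (Set.range E).Finite) ?_ ?_ S1 S0 hS1f hS0f hS1 hS0 E
  · rintro _ ⟨h, rfl⟩ j ψ hψ
    exact hQ.diff j ψ hψ h
  · rintro _ ⟨h, rfl⟩ ψ hψ
    exact hQ.diff0 ψ hψ h
  · intro E _ hEA _ _ hE
    have h1 : FF N m (∅ : Set ((Fin k → N) → G)) ∅ = ⊥ := by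
      simp [FF]
    rw [h1, AddSubgroup.mem_bot] at hE
    refine (Set.finite_singleton (1 : G)).subset ?_
    rintro _ ⟨u, rfl⟩
    exact hm.inj _ (hEA u) (congrFun hE u)
  · intro S1 S0 hS1f hS0f hS1 hS0 ψ hψ ih E hEc hEA hEcl hEs hE
    have hψc : Continuous ψ := hQ.cont D ψ hψ
    -- the function `E'`
    have hE'c : Continuous fun u => (ψ u)⁻¹ * E u * ψ u := (hψc.inv.mul hEc).mul hψc
    have hE'A : ∀ u, (ψ u)⁻¹ * E u * ψ u ∈ A := by
      intro u
      have := (inferInstance : A.Normal).conj_mem (E u) (hEA u) (ψ u)⁻¹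
      simpa using this
    have hE'cl : ∀ u, (Set.range fun x : G => x * ((ψ u)⁻¹ * E u * ψ u) * x⁻¹).Finite :=
      fun u => conj_fin_conj (hEcl u)
    have hE's := small_conj (ψ := ψ) hEcl hEs
    have hE' : (fun u => m ((ψ u)⁻¹ * E u * ψ u)) ∈ FF N m (tr ψ S1) (tr ψ S0) := by
      have h1 := hFB G N k M m S1 S0 ψ _ hE
      convert h1 using 1
      funext u
      exact kk_conj hm (hEA u)
    have hfin : (Set.range fun u => (ψ u)⁻¹ * E u * ψ u).Finite := by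
      refine hDIFF (Fin k → N) G (fun u => (ψ u)⁻¹ * E u * ψ u) hE'c hE's ?_
      intro h
      refine ih (shift h) ⟨h, rfl⟩
        {ρ | ∃ ψ' ∈ tr ψ S1, ∃ i : Fin k, ρ = fun u => ψ' (u * h) * (u i : G)} ?_ ?_ ?_
        (fun x => ((ψ x)⁻¹ * E x * ψ x)⁻¹ * ((ψ (x * h))⁻¹ * E (x * h) * ψ (x * h)))
        ?_ ?_ ?_ ?_ ?_
      · have h1 : (tr ψ S1).Finite := hS1f.image _
        refine (h1.image2 (fun (φ : (Fin k → N) → G) (i : Fin k) =>
          fun u : Fin k → N => φ (u * h) * (u i : G)) (Set.finite_univ (α := Fin k))).subset ?_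
        rintro _ ⟨φ, hφ, i, rfl⟩
        exact ⟨φ, hφ, i, Set.mem_univ i, rfl⟩
      · rintro _ ⟨_, ⟨φ, hφ, rfl⟩, i, rfl⟩
        exact mul_mem (hshift h _ (mul_mem (inv_mem hψ) (hS1 hφ))) (hQ.coord i)
      · rintro rfl
        ext ρ
        simp [tr]
      · exact hE'c.inv.mul (hE'c.comp (continuous_id.mul continuous_const))
      · intro u
        exact mul_mem (inv_mem (hE'A u)) (hE'A (u * h))
      · intro u
        exact conj_fin_div (hE'cl u) (hE'cl (u * h))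
      · exact small_div (E := fun u => (ψ u)⁻¹ * E u * ψ u) h hE's
      · have h1 := hFD G A N k M m hm (Q 0) hQ.const0 (tr ψ S1) (tr ψ S0) h _ hE'
        convert h1 using 1
        funext u
        exact kk_div hm (hE'A u)
    have hU : (⋃ b ∈ Set.range fun u => (ψ u)⁻¹ * E u * ψ u,
        Set.range fun x : G => x * b * x⁻¹).Finite := by
      refine hfin.biUnion ?_
      rintro _ ⟨u, rfl⟩
      exact hE'cl u
    refine hU.subset ?_
    rintro _ ⟨u, rfl⟩
    refine Set.mem_biUnion ⟨u, rfl⟩ ⟨ψ u, ?_⟩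
    group

end Pool.Agent.Helper27.CN
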